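import Pool.Agent.H38.Sac.Defs

/-!
Combinatorial descriptions of alternating cycles.
-/

namespace Pool.Agent.H38.Sac

open Finset

variable {V : Type} [DecidableEq V] {G : SimpleGraph V}

def cov (M : Finset (Sym2 V)) : Finset V := M.biUnion Sym2.toFinset

theorem mem_cov {M : Finset (Sym2 V)} {v} : v ∈ cov M ↔ ∃ e ∈ M, v ∈ e := by simp [cov]

theorem card_cov {M} (h : Matching G M) : (cov M).card = 2 * M.card := by
  rw [cov, card_biUnion, sum_congr rfl (g := fun _ => 2)]
  · simp [mul_comm]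
  · intro e he
    exact Sym2.card_toFinset_of_not_isDiag _ (G.not_isDiag_of_mem_edgeSet (h.1 e he))
  · intro e he f hf hef
    exact disjoint_left.2 fun v h1 h2 => h.2 e he f hf hef v (by simpa using h1) (by simpa using h2)

theorem Matching.inter {M} (h : Matching G M) (S) : Matching G (S ∩ M) :=
  ⟨fun e he => h.1 e (mem_inter.1 he).2, fun e he f hf => h.2 e (mem_inter.1 he).2 f (mem_inter.1 hf).2⟩

theorem pm [Fintype V] {μ : V → V} (h : ∀ v, G.Adj v (μ v) ∧ μ (μ v) = v) :
    MaxMatching G (univ.image fun v => s(v, μ v)) ∧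
      2 * (univ.image fun v => s(v, μ v)).card = Fintype.card V := by
  have m : Matching G (univ.image fun v => s(v, μ v)) := by
    refine ⟨fun e he => ?_, fun e he f hf hef v h1 h2 => hef ?_⟩
    · obtain ⟨v, -, rfl⟩ := mem_image.1 he; exact (h v).1
    · obtain ⟨a, -, rfl⟩ := mem_image.1 he
      obtain ⟨b, -, rfl⟩ := mem_image.1 hf
      have k : ∀ a, v ∈ s(a, μ a) → s(a, μ a) = s(v, μ v) := fun a ha => by
        rcases Sym2.mem_iff.1 ha with rfl | rfl
        · rfl
        · rw [(h a).2, Sym2.eq_swap]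
      rw [k a h1, k b h2]
  have c : 2 * (univ.image fun v => s(v, μ v)).card = Fintype.card V := by
    rw [← card_cov m, eq_univ_of_forall fun v => mem_cov.2 ⟨_, mem_image_of_mem _ (mem_univ v), by simp⟩,
      card_univ]
  refine ⟨⟨m, fun M' h' => ?_⟩, c⟩
  have := card_le_univ (cov M')
  rw [card_cov h'] at this; omega

theorem card_support {v} {C : G.Walk v v} (h : C.IsCycle) : C.support.toFinset.card = C.length := by
  have e : C.support.toFinset = C.support.tail.toFinset := by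
    ext x
    simp only [List.mem_toFinset]
    refine ⟨fun hx => ?_, List.mem_of_mem_tail⟩
    rw [← C.cons_tail_support, List.mem_cons] at hx
    rcases hx with rfl | hx
    · exact C.end_mem_tail_support h.not_nil
    · exact hx
  rw [e, List.toFinset_card_of_nodup h.support_nodup]; simp

theorem sac_s [Fintype V] {L} {ν : V → V} (h0 : ∀ v, G.Adj v (ν v) ∧ ν (ν v) = v) (h : SAC G L) :
    ∃ (C : Finset V) (μ : V → V), C.Nonempty ∧ C.card ≤ L ∧
      (∀ v ∈ C, ∃ a ∈ C, ∃ b ∈ C, a ≠ b ∧ G.Adj v a ∧ G.Adj v b) ∧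
      ∀ v ∉ C, μ v ∉ C ∧ G.Adj v (μ v) ∧ μ (μ v) = v := by
  obtain ⟨M, ⟨hM, hmax⟩, v, C, hC, -, hL, hh⟩ := h
  have all : ∀ x, ∃ y, s(x, y) ∈ M := fun x => by
    have := hmax _ (pm h0).1.1
    have e : cov M = univ := eq_univ_of_card _ (le_antisymm (card_le_univ _) (by
      rw [card_cov hM, ← (pm h0).2]; omega))
    obtain ⟨e, he, hx⟩ := mem_cov.1 (e ▸ mem_univ x)
    exact ⟨_, (Sym2.other_spec hx).symm ▸ he⟩
  choose μ hμ using all
  have uq : ∀ x y, s(x, y) ∈ M → μ x = y := fun x y hxy => by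
    by_contra hne
    exact hM.2 _ (hμ x) _ hxy (by simp [hne]; rintro rfl h; exact hne h) x (by simp) (by simp)
  have cv : cov (C.edges.toFinset ∩ M) = C.support.toFinset := by
    refine eq_of_subset_of_card_le (fun x hx => ?_) (by rw [card_cov (hM.inter _), card_support hC, hh])
    obtain ⟨e, he, hx⟩ := mem_cov.1 hx
    have he := List.mem_toFinset.1 (mem_inter.1 he).1
    rw [← Sym2.other_spec hx] at he
    exact List.mem_toFinset.2 (C.fst_mem_support_of_mem_edges he)
  refine ⟨C.support.toFinset, μ, ⟨v, by simp⟩, by rwa [card_support hC], fun x hx => ?_,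
    fun x hx => ⟨fun hy => hx ?_, hM.1 _ (hμ x), uq _ _ (by rw [Sym2.eq_swap]; exact hμ x)⟩⟩
  · obtain ⟨a, b, hab, e⟩ := Set.ncard_eq_two.1
      (hC.ncard_neighborSet_toSubgraph_eq_two (List.mem_toFinset.1 hx))
    have ha : C.toSubgraph.Adj x a := by change a ∈ C.toSubgraph.neighborSet x; rw [e]; simp
    have hb : C.toSubgraph.Adj x b := by change b ∈ C.toSubgraph.neighborSet x; rw [e]; simp
    exact ⟨a, by simpa using ha.snd_mem, b, by simpa using hb.snd_mem, hab, ha.adj_sub, hb.adj_sub⟩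
  · rw [← cv] at hy ⊢
    obtain ⟨e, he, hy⟩ := mem_cov.1 hy
    refine mem_cov.2 ⟨e, he, ?_⟩
    by_contra hx
    exact hM.2 _ (mem_inter.1 he).2 _ (hμ x) (by rintro rfl; simp at hx) _ hy (by simp)

theorem mk_walk (f : ℕ → V) (k : ℕ) (h : ∀ i < k, G.Adj (f i) (f (i + 1))) :
    ∃ p : G.Walk (f 0) (f k), p.support = (List.range (k + 1)).map f ∧
      p.edges = (List.range k).map fun i => s(f i, f (i + 1)) := by
  induction k with
  | zero => exact ⟨.nil, rfl, rfl⟩
  | succ k ih =>
    obtain ⟨p, h1, h2⟩ := ih fun i hi => h i (by omega)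
    exact ⟨p.concat (h k (by omega)), by simp [h1, List.range_succ], by simp [h2, List.range_succ]⟩

theorem sac_c [Fintype V] {k} (hk : 1 ≤ k) (f : ℕ → V) (μ : V → V)
    (inj : ∀ i < 2 * k + 2, ∀ j < 2 * k + 2, f i = f j → i = j)
    (h1 : ∀ i < 2 * k + 1, G.Adj (f i) (f (i + 1))) (h2 : G.Adj (f (2 * k + 1)) (f 0))
    (h3 : ∀ v, (∀ i < 2 * k + 2, f i ≠ v) →
      (∀ i < 2 * k + 2, f i ≠ μ v) ∧ G.Adj v (μ v) ∧ μ (μ v) = v) : SAC G (2 * k + 2) := by
  classical
  obtain ⟨p, p1, p2⟩ := mk_walk f _ h1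
  let τ : ℕ → ℕ := fun i => if i % 2 = 0 then i + 1 else i - 1
  let ν : V → V := fun v => if h : ∃ i < 2 * k + 2, f i = v then f (τ h.choose) else μ v
  have n1 : ∀ i < 2 * k + 2, ν (f i) = f (τ i) := fun i hi => by
    have h : ∃ j < 2 * k + 2, f j = f i := ⟨i, hi, rfl⟩
    simp only [ν, dif_pos h]; rw [inj _ h.choose_spec.1 _ hi h.choose_spec.2]
  have t1 : ∀ i < 2 * k + 2, τ i < 2 * k + 2 ∧ τ (τ i) = i := fun i hi => by
    simp only [τ]; split_ifs <;> omega
  have ed : ∀ i < 2 * k + 2, s(f i, f (τ i)) ∈ p.edges := fun i hi => by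
    rw [p2]; simp only [τ]
    split_ifs with h
    · exact List.mem_map.2 ⟨i, by simp; omega, rfl⟩
    · exact List.mem_map.2 ⟨i - 1, by simp; omega, by rw [show i - 1 + 1 = i by omega, Sym2.eq_swap]⟩
  have hν : ∀ v, G.Adj v (ν v) ∧ ν (ν v) = v := fun v => by
    by_cases h : ∃ i < 2 * k + 2, f i = v
    · obtain ⟨i, hi, rfl⟩ := h
      rw [n1 i hi, n1 _ (t1 i hi).1, (t1 i hi).2]
      exact ⟨p.adj_of_mem_edges (ed i hi), rfl⟩
    · have h' := h3 v (by simpa using h)
      have : ¬ ∃ i < 2 * k + 2, f i = μ v := by simpa using h'.1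
      simp only [ν, dif_neg h, dif_neg this]; exact h'.2
  have hl : p.length = 2 * k + 1 := by rw [← p.length_edges, p2]; simp
  have hC : (p.cons h2).IsCycle := by
    refine (SimpleGraph.Walk.cons_isCycle_iff _ _).2 ⟨(SimpleGraph.Walk.isPath_def _).2 ?_, ?_⟩
    · rw [p1]
      exact List.Nodup.map_on (fun i hi j hj => inj i (List.mem_range.1 hi) j (List.mem_range.1 hj))
        List.nodup_range
    · rw [p2]
      intro h
      obtain ⟨i, hi, e⟩ := List.mem_map.1 h
      have hi : i < 2 * k + 1 := by simpa using hi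
      rcases Sym2.eq_iff.1 e with ⟨a, b⟩ | ⟨a, b⟩
      · have := inj _ (by omega) _ (by omega) b; omega
      · have := inj _ (by omega) _ (by omega) a
        have := inj _ (by omega) _ (by omega) b; omega
  refine ⟨_, (pm hν).1, _, p.cons h2, hC, by simp [hl, parity_simps], by simp [hl], ?_⟩
  rw [← card_cov ((pm hν).1.1.inter _), ← card_support hC]
  congr 1
  ext x
  rw [mem_cov]
  constructor
  · rintro ⟨e, he, hx⟩
    have he := List.mem_toFinset.1 (mem_inter.1 he).1
    rw [← Sym2.other_spec hx] at he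
    exact List.mem_toFinset.2 ((p.cons h2).fst_mem_support_of_mem_edges he)
  · intro hx
    have : ∃ i < 2 * k + 2, f i = x := by
      simp only [SimpleGraph.Walk.support_cons, p1, List.mem_toFinset, List.mem_cons, List.mem_map,
        List.mem_range] at hx
      rcases hx with rfl | hx
      · exact ⟨_, by omega, rfl⟩
      · exact hx
    obtain ⟨i, hi, rfl⟩ := this
    refine ⟨s(f i, f (τ i)), mem_inter.2 ⟨by simp [ed i hi], ?_⟩, by simp⟩
    exact mem_image.2 ⟨f i, mem_univ _, by rw [n1 i hi]⟩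

end Pool.Agent.H38.Sac
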