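import Pool.Agent.H38.Sac.Snd

/-!
Completeness of the reduction and the final theorem.
-/

namespace Pool.Agent.H38.Sac

open Pool.Agent.H38.NP Finset

def cg (a : ℕ → ℕ) (i r : ℕ) : T5 :=
  if r = 0 then (1, i, 0, 0, 0) else if r = 1 then (1, i, 1, 0, 0) else (0, i, 1 - a i, r - 2, 0)

def cy (D : ℕ) (a : ℕ → ℕ) (q : ℕ) : T5 := cg a (q / D) (q % D)

theorem cy_eq {D a i r} (h : r < D) : cy D a (i * D + r) = cg a i r := by
  rw [cy, mul_comm, Nat.mul_add_div (by omega), Nat.mul_add_mod, Nat.div_eq_of_lt h,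
    Nat.mod_eq_of_lt h, add_zero]

theorem dec {N D q : ℕ} (h : q < N * D) : ∃ i < N, ∃ r < D, q = i * D + r := by
  have hD : 0 < D := Nat.pos_of_ne_zero (by rintro rfl; simp at h)
  exact ⟨q / D, (Nat.div_lt_iff_lt_mul hD).2 h, q % D, Nat.mod_lt _ hD, (Nat.div_add_mod' _ _).symm⟩

theorem enc_lt {N D i r : ℕ} (hi : i < N) (hr : r < D) : i * D + r < N * D := by
  have := Nat.mul_le_mul_right D (Nat.succ_le_of_lt hi)
  rw [Nat.succ_mul] at this; omega

theorem cy_mem {N W H a} : ∀ q < N * (W + 2), cy (W + 2) a q ∈ verts N W H := fun q hq => by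
  obtain ⟨i, hi, r, hr, rfl⟩ := dec hq
  rw [cy_eq hr, mem_verts, cg]
  split_ifs <;> simp [Val, hi]; omega

theorem cy_inj {N D a} : ∀ p < N * D, ∀ q < N * D, cy D a p = cy D a q → p = q := fun p hp q hq h => by
  obtain ⟨i, hi, r, hr, rfl⟩ := dec hp
  obtain ⟨j, hj, s, hs, rfl⟩ := dec hq
  rw [cy_eq hr, cy_eq hs, cg, cg] at h
  obtain ⟨rfl, rfl⟩ : i = j ∧ r = s := by
    split_ifs at h <;> simp at h <;> omega
  rfl

theorem len_ge (N W H) : N * (W + 2) ≤ (verts N W H).length := by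
  rw [← List.toFinset_card_of_nodup (nodup_verts N W H), ← card_range (N * (W + 2))]
  exact card_le_card_of_injOn (cy (W + 2) 0) (fun q hq => by
    simpa using cy_mem q (by simpa using hq)) fun p hp q hq => cy_inj p (by simpa using hp) q
      (by simpa using hq)

theorem complete {N K Λ oc} {a : ℕ → ℕ} (hN : 0 < N) (hK : 0 < K) (hΛ : 0 < Λ) (ha : ∀ i, a i < 2)
    (h : ∀ k < K, ∃ i < N, oc i (a i) k = true) :
    SAC (graphOf (verts N (2 * K) (2 * Λ)).length
      (tgE (verts N (2 * K) (2 * Λ)) (rel N (2 * K) (2 * Λ) oc) (0, 0, 0, 0, 0))) (N * (2 * K + 2)) := by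
  choose! c hc using h
  have ms := mu_spec (oc := oc) (ch := fun k => (c k, a (c k))) hΛ
    fun k hk => ⟨(hc k hk).1, ha _, (hc k hk).2⟩
  obtain ⟨k, e⟩ : ∃ k, N * (2 * K + 2) = 2 * k + 2 :=
    ⟨N * (K + 1) - 1, by have := Nat.mul_pos hN (show 0 < K + 1 by omega); rw [show N * (2 * K + 2) =
      2 * (N * (K + 1)) by ring]; omega⟩
  have hk : 1 ≤ k := by have := Nat.mul_le_mul_right (2 * K + 2) hN; omega
  have adj : ∀ i < N, ∀ r < 2 * K + 2, TA (rel N (2 * K) (2 * Λ) oc) (cg a i r)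
      (if r + 1 = 2 * K + 2 then cg a (if i + 1 = N then 0 else i + 1) 0 else cg a i (r + 1)) := by
    intro i hi r hr
    rcases r with _ | _ | r
    · simp [cg, TA, rel_iff, Rel]
    · rw [if_neg (by omega)]; simp [cg, TA, rel_iff, Rel]
    · split_ifs <;> simp [cg, TA, rel_iff, Rel, *]
      all_goals omega
  rw [e]
  refine tsac_c (nodup_verts _ _ _) _ _ hk (cy (2 * K + 2) a) _ (e ▸ cy_mem) (e ▸ cy_inj)
    (fun q hq => ?_) ?_ ms fun v hv hn q hq he => ?_
  · obtain ⟨i, hi, r, hr, rfl⟩ := dec (N := N) (D := 2 * K + 2) (q := q) (by omega)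
    have := adj i hi r hr
    rw [cy_eq hr]
    split_ifs at this with h1 h2
    · subst h2; rw [Nat.succ_mul] at e; omega
    · rwa [show i * (2 * K + 2) + r + 1 = (i + 1) * (2 * K + 2) + 0 by rw [add_mul i]; omega,
        cy_eq (by omega)]
    · rwa [add_assoc, cy_eq (by omega)]
  · obtain ⟨N, rfl⟩ : ∃ M, N = M + 1 := ⟨N - 1, by omega⟩
    have := adj N (by omega) (2 * K + 1) (by omega)
    rw [if_pos rfl, if_pos rfl] at this
    rwa [show 2 * k + 1 = N * (2 * K + 2) + (2 * K + 1) by rw [Nat.succ_mul] at e; omega,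
      cy_eq (by omega), show cy (2 * K + 2) a 0 = cg a 0 0 by simp [cy]]
  · obtain ⟨i, hi, r, hr, rfl⟩ := dec (N := N) (D := 2 * K + 2) (q := q) (by omega)
    rw [cy_eq hr] at he
    have hr' : (if r % 2 = 0 then r + 1 else r - 1) < 2 * K + 2 := by split_ifs <;> omega
    refine hn _ (e ▸ enc_lt hi hr') ?_
    rw [cy_eq hr', ← (ms v hv).2.2, ← he]
    have n : ∀ k, (c k, a (c k)) ≠ (i, 1 - a i) := fun k h => by
      obtain ⟨rfl, h⟩ := Prod.mk.inj h; omega
    rcases r with _ | _ | r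
    · simp [cg, mu]
    · simp [cg, mu]
    · by_cases h2 : r % 2 = 0
      · simp [cg, mu, n, h2, show (r + 1 + 1) % 2 = 0 by omega]
      · simp [cg, mu, n, h2, show (r + 1 + 1) % 2 ≠ 0 by omega, show r ≠ 0 by omega]

def nv (φ : List (Lit × Lit × Lit)) : ℕ :=
  ((List.range (3 * φ.length)).map fun u => (litAt φ u).1).sum + 1

def occ (φ : List (Lit × Lit × Lit)) (i s k : ℕ) : Bool :=
  if k < φ.length then (List.range 3).any fun j => decide (litAt φ (3 * k + j) = (i, decide (s = 1)))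
  else decide (k - φ.length = i)

def inst (φ : List (Lit × Lit × Lit)) : ℕ × List (ℕ × ℕ) × ℕ :=
  ((verts (nv φ) (2 * (φ.length + nv φ)) (2 * (nv φ * (2 * (φ.length + nv φ) + 2) + 1))).length,
    tgE (verts (nv φ) (2 * (φ.length + nv φ)) (2 * (nv φ * (2 * (φ.length + nv φ) + 2) + 1)))
      (rel (nv φ) (2 * (φ.length + nv φ)) (2 * (nv φ * (2 * (φ.length + nv φ) + 2) + 1)) (occ φ))
      (0, 0, 0, 0, 0), nv φ * (2 * (φ.length + nv φ) + 2))

@[fun_prop] theorem pt_nv {α : Type} [Enc α] {φ : α → _} (h : PT φ) : PT fun a => nv (φ a) := by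
  unfold nv; fun_prop

@[fun_prop] theorem pt_occ {α : Type} [Enc α] {φ : α → _} {i s k : α → ℕ} (h : PT φ) (hi : PT i)
    (hs : PT s) (hk : PT k) : PT fun a => occ (φ a) (i a) (s a) (k a) := by
  unfold occ; fun_prop

@[fun_prop] theorem pt_verts {α : Type} [Enc α] {N W H : α → ℕ} (h1 : PT N) (h2 : PT W) (h3 : PT H) :
    PT fun a => verts (N a) (W a) (H a) := by
  unfold verts Val
  exact PT.filter (by fun_prop) (PT.product (by fun_prop) (PT.product (by fun_prop)
    (PT.product (by fun_prop) (PT.product (by fun_prop) (by fun_prop)))))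

theorem pt_inst : PT inst := by
  unfold inst
  refine PT.mk (by fun_prop) (PT.mk (PT.tgE _ (by fun_prop) ?_) (by fun_prop))
  unfold rel; fun_prop

theorem lt_nv {φ u} (h : u < 3 * φ.length) : (litAt φ u).1 < nv φ :=
  Nat.lt_succ_of_le (List.le_sum_of_mem (List.mem_map.2 ⟨u, List.mem_range.2 h, rfl⟩))

theorem bip (N K Λ oc) : (graphOf (verts N (2 * K) (2 * Λ)).length
    (tgE (verts N (2 * K) (2 * Λ)) (rel N (2 * K) (2 * Λ) oc) (0, 0, 0, 0, 0))).Colorable 2 := by
  obtain ⟨e, -, -, e3⟩ := tg_spec (nodup_verts N (2 * K) (2 * Λ)) (rel N (2 * K) (2 * Λ) oc)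
    (0, 0, 0, 0, 0)
  let c : T5 → ℕ := fun x => (if x.1 = 0 then x.2.2.2.1 + x.2.2.2.2 else if x.1 = 1 then x.2.2.1
    else x.2.2.2.1 + 1) % 2
  have k : ∀ x y, Rel N (2 * K) (2 * Λ) oc x y → c x ≠ c y := by
    rintro ⟨a, i, s, w, t⟩ ⟨a', i', s', w', t'⟩ h
    simp only [Rel, Prod.mk.injEq] at h
    rcases h with h | h | h | h | h | h <;> simp [c, h] <;> omega
  refine ⟨SimpleGraph.Coloring.mk (fun u => ⟨c (e u), Nat.mod_lt _ (by omega)⟩) fun {u v} h h' => ?_⟩
  have h' : c (e u) = c (e v) := congrArg Fin.val h'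
  rcases ((e3 u v).1 h).2 with h | h
  exacts [k _ _ (rel_iff.1 h) h', k _ _ (rel_iff.1 h) h'.symm]

theorem sac_nph : NPH (fun p : ℕ × List (ℕ × ℕ) × ℕ =>
      0 < p.2.2 ∧ p.2.2 ≤ p.1 ∧ (graphOf p.1 p.2.1).Colorable 2)
    fun p => SAC (graphOf p.1 p.2.1) p.2.2 := by
  refine sat3_nph.reduce inst pt_inst fun φ _ => ?_
  have hN : 0 < nv φ := Nat.succ_pos _
  refine ⟨⟨Nat.mul_pos hN (by omega), len_ge _ _ _, bip _ _ _ _⟩, ?_⟩
  rw [sat3_iff_litAt]
  constructor
  · rintro ⟨a, ha⟩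
    refine complete (a := fun i => (a i).toNat) hN (by omega) (by omega) (fun i => Bool.toNat_lt _)
      fun k hk => ?_
    by_cases h : k < φ.length
    · obtain ⟨j, hj, e⟩ := ha k h
      refine ⟨_, lt_nv (u := 3 * k + j) (by omega), ?_⟩
      simp only [occ, if_pos h, List.any_eq_true, List.mem_range, decide_eq_true_eq]
      refine ⟨j, hj, Prod.ext rfl ?_⟩
      rw [e]; cases (litAt φ (3 * k + j)).2 <;> rfl
    · exact ⟨k - φ.length, by omega, by simp [occ, h]⟩
  · intro h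
    have ms := mu_spec (N := nv φ) (K := φ.length + nv φ) (oc := occ φ)
      (Λ := nv φ * (2 * (φ.length + nv φ) + 2) + 1) (ch := fun k => if k < φ.length then
        ((litAt φ (3 * k)).1, (litAt φ (3 * k)).2.toNat) else (k - φ.length, 0)) (by omega)
      fun k hk => by
        by_cases h : k < φ.length
        · simp only [if_pos h, occ, List.any_eq_true, List.mem_range, decide_eq_true_eq]
          refine ⟨lt_nv (by omega), Bool.toNat_lt _, 0, by omega, Prod.ext rfl ?_⟩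
          rw [add_zero]; cases (litAt φ (3 * k)).2 <;> rfl
        · simp [occ, h]; omega
    obtain ⟨C, μ, c1, c2, c3, c4⟩ := tsac_s (nodup_verts _ _ _) _ _ ms h
    obtain ⟨a, ha⟩ := sound (by omega) c1 c2 c3 c4 fun i hi =>
      ⟨φ.length + i, by omega, fun j s h => by simpa [occ, eq_comm] using h⟩
    refine ⟨fun i => decide (a i = 1), fun c hc => ?_⟩
    obtain ⟨i, -, s, -, ho, rfl⟩ := ha c (by omega)
    simp only [occ, if_pos hc, List.any_eq_true, List.mem_range, decide_eq_true_eq] at ho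
    obtain ⟨j, hj, e⟩ := ho
    exact ⟨j, hj, by rw [e]⟩

end Pool.Agent.H38.Sac
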