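import Mathlib

/-!
Maximum matchings and alternating cycles.
-/

namespace Pool.Agent.H38.Sac

variable {V : Type} [DecidableEq V]

/-- A matching: a finite set of pairwise disjoint edges. -/
def Matching (G : SimpleGraph V) (M : Finset (Sym2 V)) : Prop :=
  (∀ e ∈ M, e ∈ G.edgeSet) ∧ ∀ e ∈ M, ∀ f ∈ M, e ≠ f → ∀ v, v ∈ e → v ∉ f

/-- A maximum matching. -/
def MaxMatching (G : SimpleGraph V) (M : Finset (Sym2 V)) : Prop :=
  Matching G M ∧ ∀ M', Matching G M' → M'.card ≤ M.card

/-- There are a maximum matching `M` and an even cycle of length at most `L` half of whose edges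
lie in `M`. -/
def SAC (G : SimpleGraph V) (L : ℕ) : Prop :=
  ∃ M, MaxMatching G M ∧ ∃ (v : V) (C : G.Walk v v), C.IsCycle ∧ Even C.length ∧ C.length ≤ L ∧
    2 * (C.edges.toFinset ∩ M).card = C.length

end Pool.Agent.H38.Sac
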