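import Pool.Agent.H38.Sac.Gen
import Pool.Agent.H38.NP.TG

/-!
NP-hardness of the shortest alternating cycle problem.
-/

namespace Pool.Agent.H38.Sac

open Pool.Agent.H38.NP Finset

section
variable {T : Type} [DecidableEq T] {Vs : List T} (hn : Vs.Nodup) (r : T → T → Bool) (d : T)
include hn

theorem tsac_s {L} {ν : T → T} (h0 : ∀ x ∈ Vs, ν x ∈ Vs ∧ TA r x (ν x) ∧ ν (ν x) = x)
    (h : SAC (graphOf Vs.length (tgE Vs r d)) L) :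
    ∃ (C : Finset T) (μ : T → T), C.Nonempty ∧ C.card ≤ L ∧
      (∀ v ∈ C, v ∈ Vs ∧ ∃ a ∈ C, ∃ b ∈ C, a ≠ b ∧ TA r v a ∧ TA r v b) ∧
      ∀ v ∈ Vs, v ∉ C → μ v ∈ Vs ∧ μ v ∉ C ∧ TA r v (μ v) ∧ μ (μ v) = v := by
  obtain ⟨e, e1, e2, e3⟩ := tg_spec hn r d
  have : ∀ u, ∃ v, e v = ν (e u) := fun u => (e2 _).1 (h0 _ ((e2 _).2 ⟨u, rfl⟩)).1
  choose ν' hν using this
  obtain ⟨C, μ, c1, c2, c3, c4⟩ := sac_s (ν := ν') (fun u => ⟨(e3 _ _).2 (by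
    rw [hν]; exact (h0 _ ((e2 _).2 ⟨u, rfl⟩)).2.1), e1 (by
    rw [hν, hν]; exact (h0 _ ((e2 _).2 ⟨u, rfl⟩)).2.2)⟩) h
  have hx := fun u => e1.extend_apply (e ∘ μ) id u
  refine ⟨C.image e, Function.extend e (e ∘ μ) id, c1.image _, card_image_le.trans c2,
    fun v hv => ?_, fun v hv hc => ?_⟩
  · obtain ⟨u, hu, rfl⟩ := mem_image.1 hv
    obtain ⟨a, ha, b, hb, hab, h1, h2⟩ := c3 u hu
    exact ⟨(e2 _).2 ⟨u, rfl⟩, _, mem_image_of_mem _ ha, _, mem_image_of_mem _ hb, e1.ne hab,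
      (e3 _ _).1 h1, (e3 _ _).1 h2⟩
  · obtain ⟨u, rfl⟩ := (e2 _).1 hv
    obtain ⟨h1, h2, h3⟩ := c4 u fun h => hc (mem_image_of_mem _ h)
    simp only [hx, Function.comp, h3]
    exact ⟨(e2 _).2 ⟨_, rfl⟩, fun h => h1 ((e1.mem_finset_image).1 h), (e3 _ _).1 h2, trivial⟩

theorem tsac_c {k} (hk : 1 ≤ k) (f : ℕ → T) (μ : T → T) (hf : ∀ i < 2 * k + 2, f i ∈ Vs)
    (inj : ∀ i < 2 * k + 2, ∀ j < 2 * k + 2, f i = f j → i = j)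
    (h1 : ∀ i < 2 * k + 1, TA r (f i) (f (i + 1))) (h2 : TA r (f (2 * k + 1)) (f 0))
    (h3 : ∀ v ∈ Vs, μ v ∈ Vs ∧ TA r v (μ v) ∧ μ (μ v) = v)
    (h4 : ∀ v ∈ Vs, (∀ i < 2 * k + 2, f i ≠ v) → ∀ i < 2 * k + 2, f i ≠ μ v) :
    SAC (graphOf Vs.length (tgE Vs r d)) (2 * k + 2) := by
  obtain ⟨e, e1, e2, e3⟩ := tg_spec hn r d
  have : ∀ u, ∃ v, e v = μ (e u) := fun u => (e2 _).1 (h3 _ ((e2 _).2 ⟨u, rfl⟩)).1
  choose ν hν using this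
  obtain ⟨u0, -⟩ := (e2 _).1 (hf 0 (by omega))
  have : ∀ i, ∃ v, i < 2 * k + 2 → e v = f i := fun i => by
    by_cases h : i < 2 * k + 2
    · obtain ⟨v, hv⟩ := (e2 _).1 (hf i h); exact ⟨v, fun _ => hv⟩
    · exact ⟨u0, fun h' => absurd h' h⟩
  choose g hg using this
  refine sac_c hk g ν (fun i hi j hj h => inj i hi j hj (by rw [← hg i hi, ← hg j hj, h]))
    (fun i hi => (e3 _ _).2 (by rw [hg _ (by omega), hg _ (by omega)]; exact h1 i hi))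
    ((e3 _ _).2 (by rw [hg _ (by omega), hg _ (by omega)]; exact h2)) fun v hv => ?_
  have hv' := (e2 _).2 ⟨v, rfl⟩
  refine ⟨fun i hi h => h4 _ hv' (fun j hj h' => hv j hj (e1 (by rw [hg j hj, h']))) i hi
    (by rw [← hg i hi, h, hν]), (e3 _ _).2 (by rw [hν]; exact (h3 _ hv').2.1),
    e1 (by rw [hν, hν]; exact (h3 _ hv').2.2)⟩
end

abbrev T5 := ℕ × ℕ × ℕ × ℕ × ℕ

def Val (N W H : ℕ) (x : T5) : Prop :=
  (x.1 = 0 ∧ x.2.1 < N ∧ x.2.2.1 < 2 ∧ x.2.2.2.1 < W ∧ x.2.2.2.2 ≤ H) ∨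
  (x.1 = 1 ∧ x.2.1 < N ∧ x.2.2.1 < 2 ∧ x.2.2.2.1 = 0 ∧ x.2.2.2.2 = 0) ∨
  (x.1 = 2 ∧ x.2.1 = 0 ∧ x.2.2.1 = 0 ∧ x.2.2.2.1 < W ∧ x.2.2.2.2 = 0)

instance (N W H x) : Decidable (Val N W H x) := by unfold Val; infer_instance

def verts (N W H : ℕ) : List T5 :=
  (List.range 3 ×ˢ List.range (N + 1) ×ˢ List.range 2 ×ˢ List.range (W + 1) ×ˢ
    List.range (H + 1)).filter fun x => decide (Val N W H x)

theorem mem_verts {N W H x} : x ∈ verts N W H ↔ Val N W H x := by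
  obtain ⟨a, b, c, d, e⟩ := x
  simp only [verts, List.mem_filter, List.mem_product, List.mem_range, decide_eq_true_eq, Val]
  omega

theorem nodup_verts (N W H) : (verts N W H).Nodup :=
  (List.nodup_range.product (List.nodup_range.product (List.nodup_range.product
    (List.nodup_range.product List.nodup_range)))).filter _

def Rel (N W H : ℕ) (oc : ℕ → ℕ → ℕ → Bool) (x y : T5) : Prop :=
  (x.1 = 1 ∧ x.2.2.1 = 0 ∧ y = (1, x.2.1, 1, 0, 0)) ∨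
  (x.1 = 1 ∧ x.2.2.1 = 1 ∧ y = (0, x.2.1, y.2.2.1, 0, 0)) ∨
  (x.1 = 0 ∧ x.2.2.2.2 = 0 ∧ y = (0, x.2.1, x.2.2.1, x.2.2.2.1 + 1, 0)) ∨
  (x.1 = 0 ∧ x.2.2.2.2 = 0 ∧ x.2.2.2.1 + 1 = W ∧
    y = (1, if x.2.1 + 1 = N then 0 else x.2.1 + 1, 0, 0, 0)) ∨
  (x.1 = 0 ∧ (x.2.2.2.2 ≠ 0 ∨ oc x.2.1 x.2.2.1 (x.2.2.2.1 / 2) = true) ∧
    y = (0, x.2.1, x.2.2.1, x.2.2.2.1, x.2.2.2.2 + 1)) ∨
  (x.1 = 0 ∧ x.2.2.2.2 = H ∧ oc x.2.1 x.2.2.1 (x.2.2.2.1 / 2) = true ∧ y = (2, 0, 0, x.2.2.2.1, 0))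

def rel (N W H : ℕ) (oc : ℕ → ℕ → ℕ → Bool) (x y : T5) : Bool :=
  decide (x.1 = 1 ∧ x.2.2.1 = 0 ∧ y = (1, x.2.1, 1, 0, 0)) ||
  (decide (x.1 = 1 ∧ x.2.2.1 = 1 ∧ y = (0, x.2.1, y.2.2.1, 0, 0)) ||
  (decide (x.1 = 0 ∧ x.2.2.2.2 = 0 ∧ y = (0, x.2.1, x.2.2.1, x.2.2.2.1 + 1, 0)) ||
  (decide (x.1 = 0 ∧ x.2.2.2.2 = 0 ∧ x.2.2.2.1 + 1 = W ∧
    y = (1, if x.2.1 + 1 = N then 0 else x.2.1 + 1, 0, 0, 0)) ||
  (decide (x.1 = 0 ∧ (x.2.2.2.2 ≠ 0 ∨ oc x.2.1 x.2.2.1 (x.2.2.2.1 / 2) = true) ∧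
    y = (0, x.2.1, x.2.2.1, x.2.2.2.1, x.2.2.2.2 + 1)) ||
  decide (x.1 = 0 ∧ x.2.2.2.2 = H ∧ oc x.2.1 x.2.2.1 (x.2.2.2.1 / 2) = true ∧
    y = (2, 0, 0, x.2.2.2.1, 0))))))

theorem rel_iff {N W H oc x y} : rel N W H oc x y = true ↔ Rel N W H oc x y := by
  simp only [rel, Rel, Bool.or_eq_true, decide_eq_true_eq]

def mu (H : ℕ) (ch : ℕ → ℕ × ℕ) (x : T5) : T5 :=
  if x.1 = 1 then (1, x.2.1, 1 - x.2.2.1, 0, 0)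
  else if x.1 = 2 then (0, (ch (x.2.2.2.1 / 2)).1, (ch (x.2.2.2.1 / 2)).2, x.2.2.2.1, H)
  else if ch (x.2.2.2.1 / 2) = (x.2.1, x.2.2.1) then
    if x.2.2.2.2 = H then (2, 0, 0, x.2.2.2.1, 0)
    else (0, x.2.1, x.2.2.1, x.2.2.2.1, if x.2.2.2.2 % 2 = 0 then x.2.2.2.2 + 1 else x.2.2.2.2 - 1)
  else if x.2.2.2.2 = 0 then
    (0, x.2.1, x.2.2.1, if x.2.2.2.1 % 2 = 0 then x.2.2.2.1 + 1 else x.2.2.2.1 - 1, 0)
  else (0, x.2.1, x.2.2.1, x.2.2.2.1, if x.2.2.2.2 % 2 = 0 then x.2.2.2.2 - 1 else x.2.2.2.2 + 1)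

theorem mu_spec {N K Λ oc ch} (hΛ : 0 < Λ)
    (hc : ∀ k < K, (ch k).1 < N ∧ (ch k).2 < 2 ∧ oc (ch k).1 (ch k).2 k = true) :
    ∀ x ∈ verts N (2 * K) (2 * Λ), mu (2 * Λ) ch x ∈ verts N (2 * K) (2 * Λ) ∧
      TA (rel N (2 * K) (2 * Λ) oc) x (mu (2 * Λ) ch x) ∧ mu (2 * Λ) ch (mu (2 * Λ) ch x) = x := by
  rintro ⟨a, i, s, w, t⟩ hx
  simp only [mem_verts, Val] at hx ⊢
  rcases hx with ⟨rfl, h⟩ | ⟨rfl, h1, h2, rfl, rfl⟩ | ⟨rfl, rfl, rfl, h, rfl⟩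
  · have := hc (w / 2) (by omega)
    by_cases h1 : ch (w / 2) = (i, s)
    · rw [h1] at this
      by_cases h2 : t = 2 * Λ
      · simp [mu, h1, h2, TA, rel_iff, Rel, this]; omega
      · by_cases h3 : t % 2 = 0
        · simp [mu, h1, h2, h3, TA, rel_iff, Rel, this, show t + 1 ≠ 2 * Λ by omega,
            show (t + 1) % 2 ≠ 0 by omega]; omega
        · simp [mu, h1, h2, h3, TA, rel_iff, Rel, this, show t - 1 ≠ 2 * Λ by omega,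
            show (t - 1) % 2 = 0 by omega]; omega
    · by_cases h2 : t = 0
      · by_cases h3 : w % 2 = 0
        · simp [mu, h1, h2, h3, TA, rel_iff, Rel, show (w + 1) / 2 = w / 2 by omega,
            show (w + 1) % 2 ≠ 0 by omega]; omega
        · simp [mu, h1, h2, h3, TA, rel_iff, Rel, show (w - 1) / 2 = w / 2 by omega,
            show (w - 1) % 2 = 0 by omega]; omega
      · by_cases h3 : t % 2 = 0
        · simp [mu, h1, h2, h3, TA, rel_iff, Rel, show t - 1 ≠ 0 by omega,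
            show (t - 1) % 2 ≠ 0 by omega]; omega
        · simp [mu, h1, h2, h3, TA, rel_iff, Rel, show (t + 1) % 2 = 0 by omega]; omega
  · interval_cases s <;> simp [mu, TA, rel_iff, Rel, h1]
  · have := hc (w / 2) (by omega)
    simp [mu, TA, rel_iff, Rel, this, h]

end Pool.Agent.H38.Sac
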