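import Pool.Agent.H38.Sac.Red

/-!
Soundness of the reduction.
-/

namespace Pool.Agent.H38.Sac

open Pool.Agent.H38.NP Finset

section
variable {N W H : ℕ} {oc : ℕ → ℕ → ℕ → Bool}

theorem nb0 {i s w a b c d e : ℕ} (hH : 0 < H) (hy : Val N W H (a, b, c, d, e))
    (ha : TA (rel N W H oc) (0, i, s, w, 0) (a, b, c, d, e)) (this : ¬ (a = 0 ∧ e ≠ 0)) :
    (a, b, c, d, e) = (if w = 0 then (1, i, 1, 0, 0) else (0, i, s, w - 1, 0)) ∨
    (a, b, c, d, e) = (if w + 1 = W then (1, if i + 1 = N then 0 else i + 1, 0, 0, 0)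
        else (0, i, s, w + 1, 0)) := by
  simp only [TA, rel_iff, Rel, Val, Prod.mk.injEq, ne_eq, true_and, false_and, and_true, false_or,
    or_false, not_true, zero_ne_one, Nat.reduceEqDiff, and_false] at hy ha ⊢
  rcases ha with ⟨-, h⟩
  split_ifs at h ⊢ <;> simp only [Prod.mk.injEq] <;> omega

theorem nbL {i s w t : ℕ} {y} (ha : TA (rel N W H oc) (0, i, s, w, t + 1) y) (hy : Val N W H y) :
    y = (0, i, s, w, t) ∨ y = (if t + 1 = H then (2, 0, 0, w, 0) else (0, i, s, w, t + 2)) := by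
  obtain ⟨a, b, c, d, e⟩ := y
  simp only [TA, rel_iff, Rel, Val, Prod.mk.injEq, ne_eq, true_and, false_and, and_true, false_or,
    or_false, not_true, zero_ne_one, Nat.reduceEqDiff, and_false] at hy ha ⊢
  rcases ha with ⟨-, h⟩
  split_ifs <;> simp only [Prod.mk.injEq] <;> omega

theorem nb2 {w : ℕ} {y} (ha : TA (rel N W H oc) (2, 0, 0, w, 0) y) :
    ∃ i s, y = (0, i, s, w, H) ∧ oc i s (w / 2) = true := by
  obtain ⟨a, b, c, d, e⟩ := y
  simp [TA, rel_iff, Rel] at ha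
  obtain ⟨-, rfl, rfl, h, rfl⟩ := ha
  exact ⟨_, _, rfl, h⟩

theorem nbJ0 {i : ℕ} {y} (ha : TA (rel N W H oc) (1, i, 0, 0, 0) y) (hy : Val N W H y) :
    y = (1, i, 1, 0, 0) ∨ ∃ s < 2, ∃ b < N, y = (0, b, s, W - 1, 0) ∧ i = if b + 1 = N then 0 else b + 1 := by
  obtain ⟨a, b, c, d, e⟩ := y
  simp [TA, rel_iff, Rel, Val] at ha hy
  rcases ha with ⟨-, h | ⟨rfl, rfl, rfl, h⟩⟩
  · left; simp [h]
  · exact .inr ⟨c, by omega, b, by omega, rfl, h⟩

theorem nbJ1 {i : ℕ} {y} (ha : TA (rel N W H oc) (1, i, 1, 0, 0) y) (hy : Val N W H y) :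
    y = (1, i, 0, 0, 0) ∨ ∃ s < 2, y = (0, i, s, 0, 0) := by
  obtain ⟨a, b, c, d, e⟩ := y
  simp [TA, rel_iff, Rel, Val] at ha hy
  rcases ha with ⟨-, ⟨rfl, rfl, rfl, rfl⟩ | ⟨rfl, rfl, rfl⟩⟩
  · exact .inr ⟨c, by omega, rfl⟩
  · left; simp; omega
end

theorem sound {N K L oc} {C : Finset T5} {μ : T5 → T5} (hK : 0 < K) (c1 : C.Nonempty)
    (c2 : C.card ≤ L) (c3 : ∀ v ∈ C, v ∈ verts N (2 * K) (2 * (L + 1)) ∧ ∃ a ∈ C, ∃ b ∈ C, a ≠ b ∧
      TA (rel N (2 * K) (2 * (L + 1)) oc) v a ∧ TA (rel N (2 * K) (2 * (L + 1)) oc) v b)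
    (c4 : ∀ v ∈ verts N (2 * K) (2 * (L + 1)), v ∉ C → μ v ∈ verts N (2 * K) (2 * (L + 1)) ∧
      μ v ∉ C ∧ TA (rel N (2 * K) (2 * (L + 1)) oc) v (μ v) ∧ μ (μ v) = v)
    (triv : ∀ i < N, ∃ k < K, ∀ j s, oc j s k = true → j = i) :
    ∃ a : ℕ → ℕ, ∀ k < K, ∃ i < N, ∃ s < 2, oc i s k = true ∧ a i = s := by
  set H := 2 * (L + 1) with hH
  have val : ∀ v ∈ C, Val N (2 * K) H v := fun v hv => mem_verts.1 (c3 v hv).1
  have two : ∀ v ∈ C, ∀ p q : T5, (∀ y, Val N (2 * K) H y → y ∈ C → TA (rel N (2 * K) H oc) v y →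
      y = p ∨ y = q) → p ∈ C ∧ q ∈ C := fun v hv p q h => by
    obtain ⟨-, a, ha, b, hb, hab, h1, h2⟩ := c3 v hv
    rcases h a (val a ha) ha h1 with rfl | rfl <;> rcases h b (val b hb) hb h2 with rfl | rfl <;>
      simp_all
  have nl : ∀ i s w t, (0, i, s, w, t + 1) ∉ C := fun i s w t h => by
    have st : ∀ t, (0, i, s, w, t + 1) ∈ C → (0, i, s, w, t) ∈ C ∧
        (if t + 1 = H then (2, 0, 0, w, 0) else (0, i, s, w, t + 2)) ∈ C := fun t h =>
      two _ h _ _ fun y hy _ ha => nbL ha hy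
    have hb := val _ h
    simp only [Val] at hb
    have up : ∀ u, t + 1 ≤ u → u ≤ H → (0, i, s, w, u) ∈ C := fun u h1 h2 => by
      induction u, h1 using Nat.le_induction with
      | base => exact h
      | succ u hu ih =>
        obtain ⟨u, rfl⟩ : ∃ v, u = v + 1 := ⟨u - 1, by omega⟩
        have := (st u (ih (by omega))).2
        rwa [if_neg (by omega)] at this
    have dn : ∀ u, u ≤ t + 1 → (0, i, s, w, t + 1 - u) ∈ C := fun u h1 => by
      induction u with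
      | zero => exact h
      | succ u ih =>
        have := ih (by omega)
        rw [show t + 1 - u = t + 1 - (u + 1) + 1 by omega] at this
        exact (st _ this).1
    have : (range (H + 1)).card ≤ C.card := card_le_card_of_injOn (fun u => (0, i, s, w, u))
      (fun u hu => by
        have hu : u < H + 1 := by simpa using hu
        by_cases h1 : t + 1 ≤ u
        · exact up u h1 (by omega)
        · have := dn (t + 1 - u) (by omega)
          rwa [show t + 1 - (t + 1 - u) = u by omega] at this) fun u _ v _ e => by simpa using e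
    rw [card_range] at this; omega
  have nc : ∀ w, (2, 0, 0, w, 0) ∉ C := fun w h => by
    obtain ⟨-, y, ha, -, -, -, h1, -⟩ := c3 _ h
    obtain ⟨i, s, rfl, -⟩ := nb2 h1
    exact nl _ _ _ (2 * L + 1) ha
  have cl : ∀ w < 2 * K, ∃ i < N, ∃ s < 2, oc i s (w / 2) = true ∧ (0, i, s, w, 0) ∉ C := by
    intro w hw
    obtain ⟨h1, -, h3, h4⟩ := c4 (2, 0, 0, w, 0) (mem_verts.2 (by simp [Val, hw])) (nc w)
    obtain ⟨i, s, e, ho⟩ := nb2 h3
    rw [e] at h1 h4
    obtain ⟨hi, hs⟩ : i < N ∧ s < 2 := by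
      simp [mem_verts, Val] at h1; omega
    refine ⟨i, hi, s, hs, ho, ?_⟩
    have key : ∀ j ≤ L, μ (0, i, s, w, 2 * (L - j) + 1) = (0, i, s, w, 2 * (L - j)) := by
      have step : ∀ u ≤ L, μ (0, i, s, w, 2 * u + 2) ≠ (0, i, s, w, 2 * u + 1) →
          μ (0, i, s, w, 2 * u + 1) = (0, i, s, w, 2 * u) := fun u hu hne => by
        obtain ⟨g1, -, g3, g4⟩ := c4 (0, i, s, w, 2 * u + 1)
          (mem_verts.2 (by simp [Val, hi, hs, hw]; omega)) (nl _ _ _ _)
        rcases nbL g3 (mem_verts.1 g1) with e | e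
        · exact e
        · rw [if_neg (by omega)] at e
          rw [e] at g4; exact absurd g4 hne
      intro j hj
      induction j with
      | zero => exact step _ (by omega) (by rw [show 2 * (L - 0) + 2 = H by omega, h4]; simp)
      | succ j ih =>
        refine step _ (by omega) ?_
        have g := (c4 (0, i, s, w, 2 * (L - j) + 1)
          (mem_verts.2 (by simp [Val, hi, hs, hw]; omega)) (nl _ _ _ _)).2.2.2
        rw [ih (by omega)] at g
        rw [show 2 * (L - (j + 1)) + 2 = 2 * (L - j) by omega, g]; simp; omega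
    have g := (c4 (0, i, s, w, 2 * (L - L) + 1)
      (mem_verts.2 (by simp [Val, hi, hs, hw]; omega)) (nl _ _ _ _)).2.1
    rw [key L le_rfl] at g; simpa using g
  have st : ∀ i s w, (0, i, s, w, 0) ∈ C →
      (if w = 0 then (1, i, 1, 0, 0) else (0, i, s, w - 1, 0)) ∈ C ∧
      (if w + 1 = 2 * K then (1, if i + 1 = N then 0 else i + 1, 0, 0, 0)
        else (0, i, s, w + 1, 0)) ∈ C := fun i s w h =>
    two _ h _ _ fun ⟨a, b, c, d, e⟩ hy hc ha => by
      have : ¬ (a = 0 ∧ e ≠ 0) := by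
        rintro ⟨rfl, he⟩
        exact nl b c d (e - 1) (by rwa [show e - 1 + 1 = e by omega])
      exact nb0 (by omega) hy ha this
  have us : ∀ i s w, (0, i, s, w, 0) ∈ C → ∀ u < 2 * K, (0, i, s, u, 0) ∈ C := fun i s w h => by
    have h0 : (0, i, s, 0, 0) ∈ C := by
      induction w with
      | zero => exact h
      | succ w ih => exact ih (by simpa using (st _ _ _ h).1)
    intro u hu
    induction u with
    | zero => exact h0
    | succ u ih =>
      have := (st _ _ _ (ih (by omega))).2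
      rwa [if_neg (by omega)] at this
  have nb : ∀ i < N, ¬ ((0, i, 0, 0, 0) ∈ C ∧ (0, i, 1, 0, 0) ∈ C) := fun i hi ⟨h0, h1⟩ => by
    obtain ⟨k, hk, hk'⟩ := triv i hi
    obtain ⟨j, -, s, hs, ho, hc⟩ := cl (2 * k) (by omega)
    obtain rfl := hk' j s (by simpa using ho)
    interval_cases s
    · exact hc (us _ _ _ h0 _ (by omega))
    · exact hc (us _ _ _ h1 _ (by omega))
  have j0 : ∀ i, (1, i, 0, 0, 0) ∈ C → (1, i, 1, 0, 0) ∈ C := fun i h => by
    obtain ⟨-, x, ha, y, hb, hab, h1, h2⟩ := c3 _ h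
    rcases nbJ0 h1 (val _ ha) with rfl | ⟨s, hs, b, hb', rfl, e⟩
    · exact ha
    rcases nbJ0 h2 (val _ hb) with rfl | ⟨s', hs', b', hb'', rfl, e'⟩
    · exact hb
    obtain rfl : b = b' := by split_ifs at e e' <;> omega
    exfalso
    interval_cases s <;> interval_cases s'
    · exact hab rfl
    · exact nb b hb' ⟨us _ _ _ ha _ (by omega), us _ _ _ hb _ (by omega)⟩
    · exact nb b hb' ⟨us _ _ _ hb _ (by omega), us _ _ _ ha _ (by omega)⟩
    · exact hab rfl
  have j1 : ∀ i, (1, i, 1, 0, 0) ∈ C → ∃ s < 2, (0, i, s, 0, 0) ∈ C := fun i h => by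
    obtain ⟨-, x, ha, y, hb, hab, h1, h2⟩ := c3 _ h
    rcases nbJ1 h1 (val _ ha) with rfl | ⟨s, hs, rfl⟩
    · rcases nbJ1 h2 (val _ hb) with rfl | ⟨s, hs, rfl⟩
      · exact absurd rfl hab
      · exact ⟨s, hs, hb⟩
    · exact ⟨s, hs, ha⟩
  have nx : ∀ i, (1, i, 1, 0, 0) ∈ C → (1, if i + 1 = N then 0 else i + 1, 1, 0, 0) ∈ C :=
    fun i h => by
      obtain ⟨s, -, hs⟩ := j1 i h
      have := (st _ _ _ (us _ _ _ hs (2 * K - 1) (by omega))).2
      rw [if_pos (by omega)] at this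
      exact j0 _ this
  have ex : ∃ i < N, (1, i, 1, 0, 0) ∈ C := by
    obtain ⟨⟨a, i, s, w, t⟩, h⟩ := c1
    have v := val _ h
    simp only [Val] at v
    rcases v with ⟨rfl, v⟩ | ⟨rfl, h1, h2, rfl, rfl⟩ | ⟨rfl, rfl, rfl, -, rfl⟩
    · rcases t with _ | t
      · exact ⟨i, v.1, by simpa using (st _ _ _ (us _ _ _ h 0 (by omega))).1⟩
      · exact absurd h (nl _ _ _ _)
    · interval_cases s
      · exact ⟨i, h1, j0 _ h⟩
      · exact ⟨i, h1, h⟩
    · exact absurd h (nc _)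
  have up : ∀ i, (1, i, 1, 0, 0) ∈ C → ∀ j, i ≤ j → j < N → (1, j, 1, 0, 0) ∈ C := fun i h j h1 h2 => by
    induction j, h1 using Nat.le_induction with
    | base => exact h
    | succ j _ ih =>
      have := nx _ (ih (by omega))
      rwa [if_neg (by omega)] at this
  have all : ∀ j < N, (1, j, 1, 0, 0) ∈ C := fun j hj => by
    obtain ⟨i, hi, h⟩ := ex
    have := nx _ (up i h (N - 1) (by omega) (by omega))
    rw [if_pos (by omega)] at this
    exact up 0 this j (by omega) hj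
  refine ⟨fun i => if (0, i, 1, 0, 0) ∈ C then 0 else 1, fun k hk => ?_⟩
  obtain ⟨i, hi, s, hs, ho, hc⟩ := cl (2 * k) (by omega)
  refine ⟨i, hi, s, hs, by simpa using ho, ?_⟩
  have hc0 : (0, i, s, 0, 0) ∉ C := fun h => hc (us _ _ _ h _ (by omega))
  obtain ⟨s', hs', h'⟩ := j1 i (all i hi)
  interval_cases s <;> interval_cases s'
  exacts [absurd h' hc0, if_pos h', if_neg hc0, absurd h' hc0]

end Pool.Agent.H38.Sac
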